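import Pool.Agent.Run7.h314.LJ.Phi

/-! Project LJ: the limit kills the radical of the trace form. -/

set_option autoImplicit false

namespace Pool.Agent.Run7.h314.LJ

open Topology Filter Pool.Agent.N696.LI
open scoped Kronecker

variable {m n : ℕ}

/-- Left multiplication. -/
def LM (M : Mat m) : Matrix (Fin m × Fin m) (Fin m × Fin m) ℝ := M ⊗ₖ (1 : Mat m)

/-- Vectorisation. -/
def vc (B : Mat m) : Fin m × Fin m → ℝ := fun p => B p.1 p.2

theorem LM_vc (M B : Mat m) : (LM M).mulVec (vc B) = vc (M * B) := by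
  funext ⟨r, c⟩
  simp only [Matrix.mulVec, dotProduct, LM, vc, Matrix.kroneckerMap_apply, Fintype.sum_prod_type,
    Matrix.mul_apply, Matrix.one_apply]
  refine Finset.sum_congr rfl fun x _ => ?_
  rw [Finset.sum_eq_single c]
  · simp
  · intro b _ hb; simp [hb.symm]
  · intro h; exact absurd (Finset.mem_univ _) h

theorem LM_mul (M M' : Mat m) : LM (M * M') = LM M * LM M' := by
  rw [LM, LM, LM, ← Matrix.mul_kronecker_mul, Matrix.mul_one]

theorem LM_one : LM (1 : Mat m) = 1 := by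
  rw [LM, Matrix.one_kronecker_one]

theorem LM_transpose (M : Mat m) : LM M.transpose = (LM M).transpose := by
  rw [LM, LM, ← Matrix.kroneckerMap_transpose, Matrix.transpose_one]

/-- Left multiplication as a ring homomorphism. -/
def LMh : Mat m →+* Matrix (Fin m × Fin m) (Fin m × Fin m) ℝ where
  toFun := LM
  map_one' := LM_one
  map_mul' := LM_mul
  map_zero' := by ext p q; simp [LM]
  map_add' M M' := by ext p q; simp [LM, Matrix.kroneckerMap_apply, add_mul]

theorem continuous_LM : Continuous (LM : Mat m → Matrix (Fin m × Fin m) (Fin m × Fin m) ℝ) := by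
  refine continuous_matrix fun p q => ?_
  simp only [LM, Matrix.kroneckerMap_apply]
  exact (continuous_id.matrix_elem _ _).mul continuous_const

section
attribute [local instance] Matrix.linftyOpNormedRing Matrix.linftyOpNormedAlgebra

theorem LM_exp (M : Mat m) : LM (NormedSpace.exp M) = NormedSpace.exp (LM M) :=
  NormedSpace.map_exp (LMh (m := m)) continuous_LM M

end

theorem continuous_TT {ι : Type} [Fintype ι] [DecidableEq ι] (k : ℕ) :
    Continuous (TT k : Matrix ι ι ℝ → Matrix (Fin k → ι) (Fin k → ι) ℝ) := by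
  refine continuous_matrix fun p q => ?_
  simp only [TT, Matrix.of_apply]
  exact continuous_finsetProd _ fun j _ => continuous_id.matrix_elem _ _

section
variable (hten : S_ten) {X N : Fin n → Mat m} {g : ℕ → (Mat m)ˣ} {φ : Mat m →ₗ[ℝ] Mat m}
include hten

theorem tt_zero (ι : Type) [Fintype ι] [DecidableEq ι] (k : ℕ) : tt k (0 : Matrix ι ι ℝ) = 0 := by
  have h := (hten ι k (0 : Matrix ι ι ℝ) 0).2.2.2.2.1 1
  simp only [smul_zero, add_zero, one_smul] at h
  have h2 : tt k (0 : Matrix ι ι ℝ) + 0 = tt k (0 : Matrix ι ι ℝ) + tt k (0 : Matrix ι ι ℝ) := by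
    rw [add_zero]; exact h
  exact (add_left_cancel h2).symm

theorem tt_add {ι : Type} [Fintype ι] [DecidableEq ι] (k : ℕ) (A B : Matrix ι ι ℝ) :
    tt k (A + B) = tt k A + tt k B := by
  have h := (hten ι k A B).2.2.2.2.1 1
  simpa using h

theorem tt_smul {ι : Type} [Fintype ι] [DecidableEq ι] (k : ℕ) (c : ℝ) (A : Matrix ι ι ℝ) :
    tt k (c • A) = c • tt k A := by
  have h := (hten ι k A 0).2.2.2.2.1 c
  rw [tt_zero hten, add_zero, add_zero] at h
  exact h

theorem tt_sum {ι κ : Type} [Fintype ι] [DecidableEq ι] (k : ℕ) (s : Finset κ)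
    (f : κ → Matrix ι ι ℝ) : tt k (∑ i ∈ s, f i) = ∑ i ∈ s, tt k (f i) := by
  classical
  induction s using Finset.induction_on with
  | empty => simpa using tt_zero hten ι k
  | insert a s ha ih => rw [Finset.sum_insert ha, Finset.sum_insert ha, tt_add hten, ih]

theorem harm_tt (k : ℕ) (hN : Harm N) : Harm (fun i => tt k (LM (N i))) := by
  unfold Harm at hN ⊢
  have e : ∀ i, tt k (LM (N i)) * (tt k (LM (N i))).transpose -
      (tt k (LM (N i))).transpose * tt k (LM (N i)) =
      tt k (LM (N i * (N i).transpose - (N i).transpose * N i)) := by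
    intro i
    have h1 := (hten _ k (LM (N i)) (LM (N i))).2.2.2.1
    have h2 := (hten _ k (LM (N i)) (LM (N i).transpose)).2.2.2.2.2.1
    have h3 : LM (N i * (N i).transpose - (N i).transpose * N i) =
        LM (N i) * LM (N i).transpose - LM (N i).transpose * LM (N i) := by
      rw [← LM_mul, ← LM_mul]
      exact map_sub (LMh (m := m)) _ _
    rw [h3, h2, LM_transpose, h1]
  simp_rw [e]
  rw [← tt_sum hten]
  have h4 : ∑ i, LM (N i * (N i).transpose - (N i).transpose * N i) = 0 := by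
    have := map_sum (LMh (m := m)) (fun i => N i * (N i).transpose - (N i).transpose * N i)
      Finset.univ
    rw [hN, map_zero] at this
    exact this.symm
  rw [h4, tt_zero hten]

theorem exp_K (k : ℕ) (hL : Lim X N g φ) (c : Fin n → ℝ) :
    NormedSpace.exp (lc (fun i => tt k (LM (N i))) c) =
      TT k (LM (φ (NormedSpace.exp (lc X c)))) := by
  have h1 : lc (fun i => tt k (LM (N i))) c = tt k (LM (lc N c)) := by
    have : LM (lc N c) = ∑ i, c i • LM (N i) := by
      have h2 := map_sum (LMh (m := m)) (fun i => c i • N i) Finset.univ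
      refine h2.trans (Finset.sum_congr rfl fun i _ => ?_)
      ext p q
      simp [LMh, LM, Matrix.kroneckerMap_apply, mul_assoc]
    rw [this, tt_sum hten]
    simp only [lc]
    exact Finset.sum_congr rfl fun i _ => (tt_smul hten k _ _).symm
  rw [h1, (hten _ k (LM (lc N c)) 0).2.2.2.2.2.2, ← LM_exp, hL.map_exp (lc_mem c), hL.map_lc]

theorem TT_mul' (k : ℕ) {ι : Type} [Fintype ι] [DecidableEq ι] (A B : Matrix ι ι ℝ) :
    TT k (A * B) = TT k A * TT k B := (hten ι k A B).2.1

theorem TT_one' (k : ℕ) {ι : Type} [Fintype ι] [DecidableEq ι] :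
    TT k (1 : Matrix ι ι ℝ) = 1 := (hten ι k 0 0).1

omit hten in
theorem expI_mul_neg {ι : Type} [Fintype ι] [DecidableEq ι] (M : Matrix ι ι ℝ) :
    NormedSpace.exp M * NormedSpace.exp (-M) = 1 := by
  rw [← Matrix.exp_add_of_commute _ _ (Commute.neg_right (Commute.refl M)), add_neg_cancel,
    NormedSpace.exp_zero]

/-- Elements of the group acting on the tensor power come from the group. -/
theorem eg_K_le (k : ℕ) (hL : Lim X N g φ)
    {h : (Matrix (Fin k → Fin m × Fin m) (Fin k → Fin m × Fin m) ℝ)ˣ}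
    (hh : h ∈ eg (fun i => tt k (LM (N i)))) :
    ∃ x ∈ eg X, (h : Matrix (Fin k → Fin m × Fin m) (Fin k → Fin m × Fin m) ℝ) =
        TT k (LM (φ (x : Mat m))) := by
  have key : ∃ x ∈ eg X, (h : Matrix (Fin k → Fin m × Fin m) (Fin k → Fin m × Fin m) ℝ) =
        TT k (LM (φ (x : Mat m))) ∧ ((h⁻¹ : (Matrix (Fin k → Fin m × Fin m)
        (Fin k → Fin m × Fin m) ℝ)ˣ) : Matrix (Fin k → Fin m × Fin m) (Fin k → Fin m × Fin m) ℝ) =
        TT k (LM (φ ((x⁻¹ : (Mat m)ˣ) : Mat m))) := by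
    induction hh using Subgroup.closure_induction with
    | mem y hy =>
      obtain ⟨c, hc⟩ := hy
      have hu : IsUnit (NormedSpace.exp (lc X c)) := by
        refine ⟨⟨NormedSpace.exp (lc X c), NormedSpace.exp (-(lc X c)), ?_, ?_⟩, rfl⟩
        · exact expM_mul_neg _
        · have := expM_mul_neg (-(lc X c))
          rwa [neg_neg] at this
      obtain ⟨x, hx⟩ := hu
      refine ⟨x, Subgroup.subset_closure ⟨c, hx⟩, ?_, ?_⟩
      · rw [hc, exp_K hten k hL, hx]
      · rw [inv_exp hc, inv_exp hx, ← lc_neg, exp_K hten k hL, lc_neg]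
    | one =>
      refine ⟨1, (eg X).one_mem, ?_, ?_⟩
      · rw [Units.val_one, Units.val_one, hL.map_one, LM_one, TT_one' hten]
      · rw [inv_one, inv_one, Units.val_one, Units.val_one, hL.map_one, LM_one, TT_one' hten]
    | mul y z _ _ hy hz =>
      obtain ⟨y', hy', e1, e2⟩ := hy
      obtain ⟨z', hz', e3, e4⟩ := hz
      have hy2 := eg_mem_AX hy'
      have hz2 := eg_mem_AX hz'
      refine ⟨y' * z', (eg X).mul_mem hy' hz', ?_, ?_⟩
      · rw [Units.val_mul, Units.val_mul, hL.map_mul hy2.1 hz2.1, LM_mul, TT_mul' hten, e1, e3]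
      · rw [mul_inv_rev, mul_inv_rev, Units.val_mul, Units.val_mul, hL.map_mul hz2.2 hy2.2, LM_mul,
          TT_mul' hten, e2, e4]
    | inv y _ hy =>
      obtain ⟨y', hy', e1, e2⟩ := hy
      exact ⟨y'⁻¹, (eg X).inv_mem hy', e2, by rw [inv_inv, inv_inv]; exact e1⟩
  obtain ⟨x, hx, h1, -⟩ := key
  exact ⟨x, hx, h1⟩

theorem eg_K_ge (k : ℕ) (hL : Lim X N g φ) {x : (Mat m)ˣ} (hx : x ∈ eg X) :
    ∃ h ∈ eg (fun i => tt k (LM (N i))),
      (h : Matrix (Fin k → Fin m × Fin m) (Fin k → Fin m × Fin m) ℝ) =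
        TT k (LM (φ (x : Mat m))) ∧ ((h⁻¹ : (Matrix (Fin k → Fin m × Fin m)
        (Fin k → Fin m × Fin m) ℝ)ˣ) : Matrix (Fin k → Fin m × Fin m) (Fin k → Fin m × Fin m) ℝ) =
        TT k (LM (φ ((x⁻¹ : (Mat m)ˣ) : Mat m))) := by
  induction hx using Subgroup.closure_induction with
  | mem y hy =>
    obtain ⟨c, hc⟩ := hy
    have hu : IsUnit (NormedSpace.exp (lc (fun i => tt k (LM (N i))) c)) := by
      refine ⟨⟨NormedSpace.exp (lc (fun i => tt k (LM (N i))) c),
        NormedSpace.exp (-(lc (fun i => tt k (LM (N i))) c)), ?_, ?_⟩, rfl⟩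
      · exact expI_mul_neg _
      · have := expI_mul_neg (-(lc (fun i => tt k (LM (N i))) c))
        rwa [neg_neg] at this
    obtain ⟨h, hh⟩ := hu
    refine ⟨h, Subgroup.subset_closure ⟨c, hh⟩, ?_, ?_⟩
    · rw [hh, exp_K hten k hL, hc]
    · rw [inv_exp hh, inv_exp hc, ← lc_neg, exp_K hten k hL, lc_neg]
  | one =>
    refine ⟨1, Subgroup.one_mem _, ?_, ?_⟩
    · rw [Units.val_one, Units.val_one, hL.map_one, LM_one, TT_one' hten]
    · rw [inv_one, inv_one, Units.val_one, Units.val_one, hL.map_one, LM_one, TT_one' hten]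
  | mul y z hy0 hz0 hy hz =>
    obtain ⟨y', hy', e1, e2⟩ := hy
    obtain ⟨z', hz', e3, e4⟩ := hz
    have hy2 := eg_mem_AX hy0
    have hz2 := eg_mem_AX hz0
    refine ⟨y' * z', Subgroup.mul_mem _ hy' hz', ?_, ?_⟩
    · rw [Units.val_mul, Units.val_mul, hL.map_mul hy2.1 hz2.1, LM_mul, TT_mul' hten, e1, e3]
    · rw [mul_inv_rev, mul_inv_rev, Units.val_mul, Units.val_mul, hL.map_mul hz2.2 hy2.2, LM_mul,
        TT_mul' hten, e2, e4]
  | inv y _ hy =>
    obtain ⟨y', hy', e1, e2⟩ := hy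
    exact ⟨y'⁻¹, Subgroup.inv_mem _ hy', e2, by rw [inv_inv, inv_inv]; exact e1⟩

end

/-- vectorisation is linear and injective -/
def vcL : Mat m →ₗ[ℝ] (Fin m × Fin m → ℝ) where
  toFun := vc
  map_add' _ _ := rfl
  map_smul' _ _ := rfl

theorem vcL_inj : Function.Injective (vcL : Mat m →ₗ[ℝ] (Fin m × Fin m → ℝ)) := by
  intro A B h
  ext i j
  exact congrFun h (i, j)

theorem span_vc {k : ℕ} (B : Fin k → Mat m) (Y : Mat m)
    (h : vc Y ∈ Submodule.span ℝ (Set.range fun l => vc (B l))) :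
    Y ∈ Submodule.span ℝ (Set.range B) := by
  have h1 : Set.range (fun l => vc (B l)) = vcL '' Set.range B := by
    rw [← Set.range_comp]; rfl
  rw [h1, ← Submodule.map_span, Submodule.mem_map] at h
  obtain ⟨Z, hZ, he⟩ := h
  have := vcL_inj (show vcL Z = vcL Y from he)
  rwa [← this]

theorem clma (hten : S_ten) (hplu : S_plu) (hskew : S_skew) (hframe : S_frame)
    (hunim : S_unim) : S_clma := by
  classical
  intro m n X N g φ Γ hG hL
  -- a basis of the span, in `Γ`
  obtain ⟨b, hb1, hb2, hb3⟩ := Submodule.exists_fun_fin_finrank_span_eq ℝ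
    {M : Mat m | ∃ γ ∈ Γ, M = (γ : Mat m)}
  generalize Module.finrank ℝ (Submodule.span ℝ {M : Mat m | ∃ γ ∈ Γ, M = (γ : Mat m)}) = k
    at b hb1 hb2 hb3
  have hbs : Submodule.span ℝ (Set.range b) = GS Γ := hb2
  obtain ⟨B, s, C, hs, hC, hlim, horth, hone, hmul⟩ := hframe m k b g φ hb3
    (by rw [hbs]; exact GS_one Γ)
    (by rw [hbs]; exact fun M hM M' hM' => GS_mul hM hM')
    (by rw [hbs]; exact fun M hM => hL.lim M (GS_le_AX hG.le hM))
  -- the Plücker vector
  set w : (Fin k → Fin m × Fin m) → ℝ := pl (fun l => vc (B l)) with hw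
  have hΓw : ∀ γ ∈ Γ, ∃ d : ℝ, |d| = 1 ∧ (TT k (LM (φ (γ : Mat m)))).mulVec w = d • w := by
    intro γ hγ
    have hex : ∀ l, ∃ c : Fin k → ℝ, ∑ j, c j • b j = (γ : Mat m) * b l := by
      intro l
      have : (γ : Mat m) * b l ∈ Submodule.span ℝ (Set.range b) := by
        rw [hbs]
        refine GS_mul (GS_mem hγ) ?_
        rw [← hbs]; exact Submodule.subset_span ⟨l, rfl⟩
      exact (Submodule.mem_span_range_iff_exists_fun ℝ).1 this
    choose c hc using hex
    obtain ⟨a, ha, hal⟩ := hmul (γ : Mat m) (by rw [hbs]; exact GS_mem hγ)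
      (Matrix.of fun j l => c l j) (fun l => (hc l).symm)
    have hdet := hunim m k Γ b hG.int hb3 hb1 hbs γ hγ (Matrix.of fun j l => c l j)
      (fun l => (hc l).symm)
    refine ⟨a.det, by rw [ha]; exact hdet, ?_⟩
    refine (hplu _ k (fun l => vc (B l))).1 (LM (φ (γ : Mat m))) a ?_
    intro l
    rw [LM_vc, hal l]
    exact map_sum vcL (fun j => a j l • B j) Finset.univ
  obtain ⟨K0, hK0, hK0le, hK0c⟩ := hG.cocompact
  -- boundedness of the orbit
  have hcont : Continuous (fun x : (Mat m)ˣ =>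
      (TT k (LM (φ ((x⁻¹ : (Mat m)ˣ) : Mat m)))).mulVec w) := by
    have h1 : Continuous (fun x : (Mat m)ˣ => ((x⁻¹ : (Mat m)ˣ) : Mat m)) :=
      Units.continuous_val.comp continuous_inv
    have h2 : Continuous φ := LinearMap.continuous_of_finiteDimensional φ
    exact ((continuous_TT k).comp (continuous_LM.comp (h2.comp h1))).matrix_mulVec
      continuous_const
  obtain ⟨R, hR⟩ := hK0.exists_bound_of_continuousOn (f := fun x : (Mat m)ˣ =>
      (TT k (LM (φ ((x⁻¹ : (Mat m)ˣ) : Mat m)))).mulVec w) hcont.continuousOn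
  have hbd : ∀ x ∈ eg X, ∀ i, |((TT k (LM (φ (x : Mat m)))).mulVec w) i| ≤ R := by
    intro x hx i
    obtain ⟨γ, hγ, hk⟩ := hK0c x⁻¹ ((eg X).inv_mem hx)
    have hγ' := Γ.inv_mem hγ
    obtain ⟨d, hd, hdw⟩ := hΓw _ hγ'
    have e1 : (x : Mat m) = (((γ⁻¹ * x⁻¹)⁻¹ : (Mat m)ˣ) : Mat m) *
        ((γ⁻¹ : (Mat m)ˣ) : Mat m) := by
      rw [← Units.val_mul]; congr 1; group
    have hm1 : (((γ⁻¹ * x⁻¹)⁻¹ : (Mat m)ˣ) : Mat m) ∈ AX X := (eg_mem_AX (hK0le hk)).2
    have hm2 : ((γ⁻¹ : (Mat m)ˣ) : Mat m) ∈ AX X := (eg_mem_AX (hG.le hγ')).1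
    rw [e1, hL.map_mul hm1 hm2, LM_mul, TT_mul' hten, ← Matrix.mulVec_mulVec, hdw,
      Matrix.mulVec_smul, Pi.smul_apply, smul_eq_mul, abs_mul, hd, one_mul]
    have h2 := hR _ hk
    have h3 := norm_le_pi_norm ((TT k (LM (φ ((((γ⁻¹ * x⁻¹ : (Mat m)ˣ))⁻¹ : (Mat m)ˣ) :
      Mat m)))).mulVec w) i
    rw [Real.norm_eq_abs] at h3
    exact h3.trans h2
  have hsk := hskew (Fin k → Fin m × Fin m) n (fun i => tt k (LM (N i))) (harm_tt hten k hL.harm)
    w R (by
      intro h hh i
      obtain ⟨x, hx, he⟩ := eg_K_le hten k hL hh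
      rw [he]
      exact hbd x hx i)
  -- transposes preserve the limit space
  have htr : ∀ γ ∈ Γ, ∀ Y ∈ Submodule.span ℝ (Set.range B),
      (φ (γ : Mat m)).transpose * Y ∈ Submodule.span ℝ (Set.range B) := by
    intro γ hγ Y hY
    obtain ⟨h, hh, e1, e2⟩ := eg_K_ge hten k hL (hG.le hγ)
    have h1 := hsk h hh
    rw [e1, e2] at h1
    obtain ⟨d, hd, hdw⟩ := hΓw _ (Γ.inv_mem hγ)
    rw [hdw, ← (hten _ k (LM (φ (γ : Mat m))) 0).2.2.1, ← LM_transpose] at h1
    have hd0 : d ≠ 0 := by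
      intro h0; rw [h0, abs_zero] at hd; exact zero_ne_one hd
    have h2 := (hplu _ k (fun l => vc (B l))).2.2 (by
      intro i j
      rw [← horth i j]
      simp only [dotProduct, vc, Matrix.trace, Matrix.diag_apply, Matrix.mul_apply,
        Matrix.transpose_apply, Fintype.sum_prod_type]) _ d hd0 h1
    induction hY using Submodule.span_induction with
    | mem y hy =>
      obtain ⟨l, rfl⟩ := hy
      have h3 := h2 l
      rw [LM_vc] at h3
      exact span_vc B _ h3
    | zero => rw [mul_zero]; exact Submodule.zero_mem _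
    | add p q _ _ hp hq => rw [mul_add]; exact Submodule.add_mem _ hp hq
    | smul r p _ hp => rw [mul_smul_comm]; exact Submodule.smul_mem _ _ hp
  have hGS : ∀ M ∈ GS Γ, (φ M).transpose ∈ Submodule.span ℝ (Set.range B) := by
    intro M hM
    induction hM using Submodule.span_induction with
    | mem y hy =>
      obtain ⟨γ, hγ, rfl⟩ := hy
      have := htr γ hγ 1 hone
      rwa [mul_one] at this
    | zero => rw [map_zero, Matrix.transpose_zero]; exact Submodule.zero_mem _
    | add p q _ _ hp hq => rw [map_add, Matrix.transpose_add]; exact Submodule.add_mem _ hp hq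
    | smul r p _ hp =>
      rw [map_smul, Matrix.transpose_smul]; exact Submodule.smul_mem _ _ hp
  intro M hM
  obtain ⟨c, hc⟩ := (Submodule.mem_span_range_iff_exists_fun ℝ).1 (hGS M hM.1)
  have h1 : Tendsto (fun t => cjm (g (s t)) M) atTop (𝓝 (φ M)) :=
    (hL.tend (GS_le_AX hG.le hM.1)).comp hs
  have h2 : Tendsto (fun t => ∑ l, c l • cjm (g (s t)) (C t l)) atTop (𝓝 (∑ l, c l • B l)) :=
    tendsto_finsetSum _ fun l _ => (hlim l).const_smul (c l)
  have h3 : Tendsto (fun t => (cjm (g (s t)) M * ∑ l, c l • cjm (g (s t)) (C t l)).trace) atTop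
      (𝓝 (φ M * ∑ l, c l • B l).trace) := by
    have hc : Continuous (fun M : Mat m => M.trace) := by
      unfold Matrix.trace; fun_prop
    exact (hc.tendsto _).comp (h1.mul h2)
  have h4 : ∀ t, (cjm (g (s t)) M * ∑ l, c l • cjm (g (s t)) (C t l)).trace = 0 := by
    intro t
    have e1 : cjm (g (s t)) M * ∑ l, c l • cjm (g (s t)) (C t l) =
        cjm (g (s t)) (M * ∑ l, c l • C t l) := by
      rw [cjm_mul]
      congr 1
      simp only [cjm, Finset.mul_sum, Finset.sum_mul, mul_smul_comm, smul_mul_assoc]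
    rw [e1, cjm_trace]
    refine hM.trace (Submodule.sum_mem _ fun l _ => Submodule.smul_mem _ _ ?_)
    rw [← hbs]; exact hC t l
  simp_rw [h4] at h3
  have h5 : (φ M * (φ M).transpose).trace = 0 := by
    rw [← hc]; exact (tendsto_nhds_unique h3 tendsto_const_nhds)
  have h6 := (Matrix.trace_mul_conjTranspose_self_eq_zero_iff (A := φ M)).1 (by
    rw [Matrix.conjTranspose_eq_transpose_of_trivial]; exact h5)
  exact h6

end Pool.Agent.Run7.h314.LJ
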