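import Pool.Agent.Run7.h314.LJ.Hmod
import Pool.Agent.N696.LI.Main

/-! Project LJ: minimality and the main theorem, from the parts. -/

set_option autoImplicit false
set_option linter.unusedSectionVars false

namespace Pool.Agent.Run7.h314.LJ

open Topology Filter MvPolynomial Pool.Agent.N696.LI

variable {A : Type} [NormedRing A] [NormedAlgebra ℝ A] [FiniteDimensional ℝ A]
variable {m : ℕ} {𝔤 : Submodule ℝ A} {Γ : Subgroup Aˣ} {v : Submodule ℝ A} {b : Fin m → A}
    {c : A →ₗ[ℝ] (Fin m → ℝ)}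

/-- If `v` is minimal, then there is no proper rational invariant subspace. -/
theorem mini (hker : S_ker) (hS : Setting 𝔤 Γ v) (hc : Co Γ v b c)
    (hmin : ∀ u' : Submodule ℝ A, Setting 𝔤 Γ u' → u' ≤ v → u' = v)
    (S : Submodule ℝ (Fin m → ℝ))
    (hinv : ∀ X : 𝔤, ∀ s ∈ S, (DD 𝔤 b c X).mulVec s ∈ S)
    (hrat : ∀ s ∈ S, s ∈ Submodule.span ℝ {y | y ∈ S ∧ ∃ z : Fin m → ℚ, y = fun i => (z i : ℝ)})
    (hne : S ≠ ⊥) : S = ⊤ := by
  classical
  let φ : (Fin m → ℝ) →ₗ[ℝ] A := Fintype.linearCombination ℝ b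
  have hφ : ∀ x : Fin m → ℝ, φ x = ∑ i, x i • b i := fun x => rfl
  -- a finite rational spanning family
  obtain ⟨f, hf1, hf2, -⟩ := Submodule.exists_fun_fin_finrank_span_eq ℝ
    {y : Fin m → ℝ | y ∈ S ∧ ∃ z : Fin m → ℚ, y = fun i => (z i : ℝ)}
  have hspan : Submodule.span ℝ (Set.range f) = S := by
    rw [hf2]
    apply le_antisymm
    · rw [Submodule.span_le]; exact fun y hy => hy.1
    · exact hrat
  generalize hk : Module.finrank ℝ (Submodule.span ℝ
    {y : Fin m → ℝ | y ∈ S ∧ ∃ z : Fin m → ℚ, y = fun i => (z i : ℝ)}) = k at f hf1 hf2 hspan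
  choose z hz using fun j => (hf1 j).2
  let Mq : Matrix (Fin k) (Fin m) ℚ := Matrix.of fun j i => z j i
  let κ : A →ₗ[ℝ] (Fin k → ℝ) := (Mq.map (fun q : ℚ => (q : ℝ))).mulVecLin ∘ₗ c
  have hκ : ∀ y, κ y = (Mq.map (fun q : ℚ => (q : ℝ))).mulVec (c y) := fun y => rfl
  have hrow : ∀ x : Fin m → ℝ, (Mq.map (fun q : ℚ => (q : ℝ))).mulVec x = 0 ↔
      ∀ s ∈ S, dotProduct s x = 0 := by
    intro x
    constructor
    · intro h s hs
      rw [← hspan] at hs
      induction hs using Submodule.span_induction with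
      | mem s hs =>
        obtain ⟨j, rfl⟩ := hs
        have := congrFun h j
        rw [hz j]
        exact this
      | zero => exact zero_dotProduct _
      | add p q _ _ hp hq => rw [add_dotProduct, hp, hq, add_zero]
      | smul r p _ hp => rw [smul_dotProduct, hp, smul_zero]
    · intro h
      funext j
      have := h (f j) (hf1 j).1
      rw [hz j] at this
      exact this
  let u : Submodule ℝ A := v ⊓ LinearMap.ker κ
  have huv : u ≤ v := inf_le_left
  have hku : ∀ y ∈ u, ∀ s ∈ S, dotProduct s (c y) = 0 := fun y hy =>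
    (hrow _).1 (Submodule.mem_inf.1 hy).2
  have hmk : ∀ y ∈ v, (∀ s ∈ S, dotProduct s (c y) = 0) → y ∈ u := fun y hy h =>
    Submodule.mem_inf.2 ⟨hy, (hrow _).2 h⟩
  by_cases hune : u = ⊥
  · -- the annihilator vanishes
    rw [eq_top_iff]
    rintro y -
    obtain ⟨e, he⟩ := surj_of_dot S.subtype (by
      intro x hx
      have h1 : φ x ∈ u := by
        refine hmk _ (sum_mem_v hc x) fun s hs => ?_
        rw [hφ, hc.c_sum]
        exact hx ⟨s, hs⟩
      rw [hune, Submodule.mem_bot, hφ] at h1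
      have := hc.c_sum x
      rw [h1, map_zero] at this
      exact this.symm) y
    rw [he]
    exact e.2
  · exfalso
    have hid : ∀ X ∈ 𝔤, ∀ x ∈ u, br X x ∈ u := by
      intro X hX x hx
      refine hmk _ (hS.v_ideal X hX x (huv hx)) fun s hs => ?_
      obtain ⟨β, rfl⟩ := exists_cov hc s
      have h1 : ∀ y ∈ v, dotProduct (cov b β) (c y) = β y := by
        intro y hy
        conv_rhs => rw [hc.sum_c y hy]
        rw [dot_cov]
      rw [h1 _ (hS.v_ideal X hX x (huv hx))]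
      have h2 := dot_DD hc hS.v_ideal ⟨X, hX⟩ β (c x)
      rw [← hc.sum_c x (huv hx), hku x hx _ (hinv ⟨X, hX⟩ _ hs)] at h2
      have h3 : β (br X x) = 0 := by
        have : -β (br X x) = 0 := h2.symm
        linarith
      exact h3
    have hlat : u ≤ Submodule.span ℝ {x | x ∈ u ∧ ∃ γ ∈ Γ, (γ : A) = NormedSpace.exp x} := by
      intro x hx
      have h1 := hker k m Mq (c x) ((hrow _).2 (hku x hx))
      have h2 : φ (c x) ∈ Submodule.map φ (Submodule.span ℝ {y : Fin m → ℝ |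
          ∃ z : Fin m → ℚ, Mq.mulVec z = 0 ∧ y = fun i => (z i : ℝ)}) :=
        Submodule.mem_map_of_mem h1
      rw [coe_sum_c hc x (huv hx), Submodule.map_span] at h2
      refine Submodule.span_le.2 ?_ h2
      rintro _ ⟨_, ⟨z, hz, rfl⟩, rfl⟩
      obtain ⟨N, w, hN, hw⟩ := exists_int_mul z
      have hN' : (N : ℝ) ≠ 0 := by exact_mod_cast hN.ne'
      have h3 : φ (fun i => (z i : ℝ)) ∈ u := by
        refine hmk _ (sum_mem_v hc _) ?_
        rw [hφ, hc.c_sum, ← hrow]
        funext i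
        have := congrFun hz i
        simp only [Matrix.mulVec, dotProduct, Pi.zero_apply, Matrix.map_apply] at this ⊢
        exact_mod_cast this
      have h4 : (N : ℝ) • φ (fun i => (z i : ℝ)) ∈ Submodule.span ℝ
          {x | x ∈ u ∧ ∃ γ ∈ Γ, (γ : A) = NormedSpace.exp x} := by
        refine Submodule.subset_span ⟨u.smul_mem _ h3, ?_⟩
        refine (hc.exp_iff _ (v.smul_mem _ (huv h3))).2 ⟨w, ?_⟩
        rw [hφ, Finset.smul_sum]
        refine Finset.sum_congr rfl fun i _ => ?_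
        rw [smul_smul, hw]
      have h5 := Submodule.smul_mem _ ((N : ℝ)⁻¹) h4
      rw [smul_smul, inv_mul_cancel₀ hN', one_smul] at h5
      exact h5
    have hSu : Setting 𝔤 Γ u :=
      { lie := hS.lie
        unimodular := hS.unimodular
        le := hS.le
        discrete := hS.discrete
        cocompact := hS.cocompact
        v_le := huv.trans hS.v_le
        v_ne := hune
        v_comm := fun x hx y hy => hS.v_comm x (huv hx) y (huv hy)
        v_ideal := hid
        v_lattice := hlat }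
    have huv' := hmin u hSu huv
    apply hne
    rw [eq_bot_iff]
    intro s hs
    rw [Submodule.mem_bot]
    funext j
    have h7 : b j ∈ u := by rw [huv']; exact hc.b_mem j
    have h8 := hku _ h7 s hs
    have hcj : c (b j) = Pi.single j 1 := by
      have := hc.c_sum (Pi.single j 1)
      rw [← this]
      congr 1
      simp [Pi.single_apply]
    rw [hcj, dotProduct_single, mul_one] at h8
    exact h8

/-- The generators. -/
noncomputable def XX (𝔤 : Submodule ℝ A) (b : Fin m → A) (c : A →ₗ[ℝ] (Fin m → ℝ)) :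
    Fin (Module.finrank ℝ 𝔤) → Mat m := fun i => DD 𝔤 b c (Module.finBasis ℝ 𝔤 i)

theorem lc_XX (x : Fin (Module.finrank ℝ 𝔤) → ℝ) :
    lc (XX 𝔤 b c) x = DD 𝔤 b c (∑ i, x i • Module.finBasis ℝ 𝔤 i) := by
  simp only [lc, XX, map_sum, map_smul]

theorem exists_lc (X : 𝔤) : ∃ x, DD 𝔤 b c X = lc (XX 𝔤 b c) x := by
  refine ⟨fun i => (Module.finBasis ℝ 𝔤).repr X i, ?_⟩
  rw [lc_XX, (Module.finBasis ℝ 𝔤).sum_repr]

theorem eg_XX (hexpm : S_expm) (hS : Setting 𝔤 Γ v) (hc : Co Γ v b c)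
    (hv : ∀ g ∈ grp 𝔤, ∀ y ∈ v, cj g y ∈ v) : eg (XX 𝔤 b c) = GG hc hv := by
  have hL := linGrp hexpm hS hc hv
  apply le_antisymm
  · unfold eg
    rw [Subgroup.closure_le]
    rintro g ⟨x, hx⟩
    obtain ⟨g', hg', hx'⟩ := hL.exp_mem (∑ i, x i • Module.finBasis ℝ 𝔤 i)
    rw [lc_XX] at hx
    have : g = g' := Units.ext (by rw [hx, hx'])
    rw [this]
    exact hg'
  · refine hL.gen.trans ?_
    rw [Subgroup.closure_le]
    rintro g ⟨X, hX⟩
    obtain ⟨x, hx⟩ := exists_lc (b := b) (c := c) X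
    exact Subgroup.subset_closure ⟨x, by rw [hX, hx]⟩

theorem main_all (hexpm : S_expm) (hlat : S_lat) (hnoop : S_noop) (hpoly2 : S_poly2)
    (hker : S_ker) (hminv : S_minv) (hhess : S_hess) (hdc : S_dc) (hphi : S_phi)
    (hclma : S_clma) (hrho : S_rho) (hhar : S_har) (hsoc : S_soc) (hkill : S_kill)
    (hrat2 : S_rat2) (hmet : S_met) (hfis : S_fis)
    (hS : Setting 𝔤 Γ v) (α : A →ₗ[ℝ] ℝ) (ξ : A) (hα : IsContact 𝔤 α ξ) :
    ∀ g ∈ grp 𝔤, ∀ W ∈ 𝓝 g, ∃ g' ∈ grp 𝔤, g' ∈ W ∧ ∃ T : ℝ, 0 < T ∧ ∃ γ ∈ Γ,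
      (g' : A) * NormedSpace.exp (T • ξ) = γ * g' := by
  classical
  obtain ⟨u, hu, huv, hmin⟩ := exists_min hS
  obtain ⟨m, b, c, hc⟩ := exists_co hlat hu
  have hv := cj_mem hexpm 𝔤 u hu.v_ideal
  obtain ⟨d, Q, hQ, hQ2⟩ := exists_linPoly hexpm hnoop hpoly2 hu hc hv α ξ hα
  have hL := linGrp hexpm hu hc hv
  have heg := eg_XX hexpm hu hc hv
  set X := XX 𝔤 b c with hX
  have hG : LG X (GammaM hc hv) := by
    refine ⟨?_, hL.int, ?_⟩
    · rw [heg]; exact hL.le
    · rw [heg]; exact hL.cocompact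
  obtain ⟨g, N, φ, hlim⟩ := hphi m _ X
  let S : Submodule ℝ (Fin m → ℝ) :=
    { carrier := {v | ∀ M, JJ (GammaM hc hv) M → M.mulVec v = 0}
      add_mem' := by
        intro a b ha hb M hM
        rw [Matrix.mulVec_add, ha M hM, hb M hM, add_zero]
      zero_mem' := by intro M _; exact Matrix.mulVec_zero _
      smul_mem' := by
        intro r a ha M hM
        rw [Matrix.mulVec_smul, ha M hM, smul_zero] }
  have hSm : ∀ s, s ∈ S ↔ ∀ M, JJ (GammaM hc hv) M → M.mulVec s = 0 := fun s => Iff.rfl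
  have hStop : S = ⊤ := by
    refine mini hker hu hc hmin S ?_ ?_ ?_
    · intro Y s hs
      obtain ⟨x, hx⟩ := exists_lc (b := b) (c := c) Y
      rw [hx]
      have : (lc X x).mulVec s = ∑ i, x i • (X i).mulVec s := by
        rw [lc, Matrix.sum_mulVec]
        exact Finset.sum_congr rfl fun i _ => Matrix.smul_mulVec _ _ _
      rw [← hX, this]
      refine Submodule.sum_mem _ fun i _ => Submodule.smul_mem _ _ ?_
      exact JJ_invariant hclma hrho hhar hkill hG hlim s hs i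
    · intro s hs
      exact hrat2 m (GammaM hc hv) hL.int s hs
    · obtain ⟨s, hs0, hs⟩ := hsoc m (GammaM hc hv) hc.pos
      intro hbot
      apply hs0
      have : s ∈ S := hs
      rw [hbot, Submodule.mem_bot] at this
      exact this
  have hmod : ∀ w, HMod X w := by
    intro w
    have hw : w ∈ S := by rw [hStop]; trivial
    exact hmod_of_JJ hclma hrho hhar hG hlim w hw
  obtain ⟨P, hP, hPX⟩ := hmet m _ X hmod
  have hPi : (P⁻¹).PosDef := hP.inv
  have hdet : IsUnit P.det := (Matrix.isUnit_iff_isUnit_det _).1 hP.isUnit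
  have hfis' := hfis m _ X P hP hPX Q (by rw [heg]; exact hQ.inv)
  rw [heg] at hfis'
  have key : ∀ g ∈ GG hc hv, ∀ ν,
      eval (((P⁻¹)⁻¹ * (g : Mat m).transpose * P⁻¹).mulVec ν) Q = eval ν Q := by
    intro g hg ν
    rw [Matrix.nonsing_inv_nonsing_inv _ hdet]
    exact hfis' g hg ν
  have hD : ∀ ν, eval ν Q ≠ 0 → DCond (DD 𝔤 b c) ν := by
    intro ν hν
    obtain ⟨g, hg, hreeb⟩ := hminv m 𝔤 (DD 𝔤 b c) (GG hc hv) (GammaM hc hv) d Q hL hQ (P⁻¹) hPi
      ν hν
    refine dCond_conj hL g hg ν ?_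
    refine hhess m 𝔤 (DD 𝔤 b c) (GG hc hv) d Q hQ hL.exp_mem (P⁻¹) hPi key _ ?_ hreeb
    rw [hQ.inv g hg]
    exact hν
  exact main_of_ratDense hexpm hu hc hv α ξ hα d Q hQ hQ2
    (hdc m 𝔤 (DD 𝔤 b c) (GG hc hv) (GammaM hc hv) d Q hL hQ hD)

end Pool.Agent.Run7.h314.LJ
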