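import Pool.Agent.Run7.h314.LJ.Phi

/-! Project LJ: modules with harmonic generators. -/

set_option autoImplicit false

namespace Pool.Agent.Run7.h314.LJ

open Topology Filter Matrix Pool.Agent.N696.LI

variable {m n : ℕ}

theorem hmod_zero (X : Fin n → Mat m) : HMod X 0 := by
  classical
  refine ⟨Empty, inferInstance, inferInstance, fun _ => 0, 0, fun e => e.elim, ?_, ?_, ?_⟩
  · simp [Harm]
  · intro i; simp
  · simp

theorem hmod_add {X : Fin n → Mat m} {v w : Fin m → ℝ} (hv : HMod X v) (hw : HMod X w) :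
    HMod X (v + w) := by
  obtain ⟨h1, i1, d1, K1, E1, y1, hK1, hE1, rfl⟩ := hv
  obtain ⟨h2, i2, d2, K2, E2, y2, hK2, hE2, rfl⟩ := hw
  refine ⟨h1 ⊕ h2, inferInstance, inferInstance,
    fun i => Matrix.fromBlocks (K1 i) 0 0 (K2 i), Matrix.fromCols E1 E2, Sum.elim y1 y2, ?_, ?_, ?_⟩
  · unfold Harm at hK1 hK2 ⊢
    have e : ∀ i, Matrix.fromBlocks (K1 i) 0 0 (K2 i) *
        (Matrix.fromBlocks (K1 i) 0 0 (K2 i)).transpose -
        (Matrix.fromBlocks (K1 i) 0 0 (K2 i)).transpose * Matrix.fromBlocks (K1 i) 0 0 (K2 i) =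
        Matrix.fromBlocks (K1 i * (K1 i).transpose - (K1 i).transpose * K1 i) 0 0
          (K2 i * (K2 i).transpose - (K2 i).transpose * K2 i) := by
      intro i
      rw [Matrix.fromBlocks_transpose, Matrix.fromBlocks_multiply, Matrix.fromBlocks_multiply]
      ext (a | a) (b | b) <;> simp [Matrix.fromBlocks]
    simp_rw [e]
    ext (a | a) (b | b)
    · have := congrFun (congrFun hK1 a) b
      simpa [Matrix.sum_apply] using this
    · simp [Matrix.sum_apply]
    · simp [Matrix.sum_apply]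
    · have := congrFun (congrFun hK2 a) b
      simpa [Matrix.sum_apply] using this
  · intro i
    rw [Matrix.fromCols_mul_fromBlocks, Matrix.mul_fromCols, ← hE1, ← hE2]
    simp
  · funext r
    simp [Matrix.mulVec, dotProduct, Matrix.fromCols]

theorem hmod_sum {X : Fin n → Mat m} {κ : Type} (s : Finset κ) (f : κ → Fin m → ℝ)
    (h : ∀ k ∈ s, HMod X (f k)) : HMod X (∑ k ∈ s, f k) := by
  classical
  induction s using Finset.induction_on with
  | empty => simpa using hmod_zero X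
  | insert a s ha ih =>
    rw [Finset.sum_insert ha]
    exact hmod_add (h _ (Finset.mem_insert_self _ _))
      (ih fun k hk => h k (Finset.mem_insert_of_mem hk))

theorem hmod_X {X : Fin n → Mat m} {v : Fin m → ℝ} (hv : HMod X v) (i : Fin n) :
    HMod X ((X i).mulVec v) := by
  obtain ⟨h1, i1, d1, K1, E1, y1, hK1, hE1, rfl⟩ := hv
  refine ⟨h1, i1, d1, K1, E1, (K1 i).mulVec y1, hK1, hE1, ?_⟩
  rw [Matrix.mulVec_mulVec, Matrix.mulVec_mulVec, hE1]

open scoped Kronecker in
theorem hmod_har {X N : Fin n → Mat m} (hN : Harm N) {l : ℕ} (w : Fin l → Mat m)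
    (σ : Fin n → Mat l) (hσ : ∀ i, (σ i).transpose = - σ i)
    (hw : ∀ i a, X i * w a - w a * N i = ∑ b, σ i b a • w b) {ρ : Mat m}
    (hρ : ρ ∈ Submodule.span ℝ (Set.range w)) (y : Fin m → ℝ) : HMod X (ρ.mulVec y) := by
  classical
  obtain ⟨t, rfl⟩ := (Submodule.mem_span_range_iff_exists_fun ℝ).1 hρ
  refine ⟨Fin l × Fin m, inferInstance, inferInstance,
    fun i => (σ i) ⊗ₖ (1 : Mat m) + (1 : Mat l) ⊗ₖ (N i),
    Matrix.of fun r p => w p.1 r p.2, fun p => t p.1 * y p.2, ?_, ?_, ?_⟩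
  · unfold Harm at hN ⊢
    have e : ∀ i, ((σ i) ⊗ₖ (1 : Mat m) + (1 : Mat l) ⊗ₖ (N i)) *
        ((σ i) ⊗ₖ (1 : Mat m) + (1 : Mat l) ⊗ₖ (N i)).transpose -
        ((σ i) ⊗ₖ (1 : Mat m) + (1 : Mat l) ⊗ₖ (N i)).transpose *
          ((σ i) ⊗ₖ (1 : Mat m) + (1 : Mat l) ⊗ₖ (N i)) =
        (1 : Mat l) ⊗ₖ (N i * (N i).transpose - (N i).transpose * N i) := by
      intro i
      have h1 : ((σ i) ⊗ₖ (1 : Mat m) + (1 : Mat l) ⊗ₖ (N i)).transpose =
          (- σ i) ⊗ₖ (1 : Mat m) + (1 : Mat l) ⊗ₖ ((N i).transpose) := by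
        rw [Matrix.transpose_add, ← Matrix.kroneckerMap_transpose, ← Matrix.kroneckerMap_transpose,
          hσ, Matrix.transpose_one, Matrix.transpose_one]
      have h2 : (1 : Mat l) ⊗ₖ (N i * (N i).transpose - (N i).transpose * N i) =
          (1 : Mat l) ⊗ₖ (N i * (N i).transpose) - (1 : Mat l) ⊗ₖ ((N i).transpose * N i) := by
        ext p q
        simp [Matrix.kroneckerMap_apply, mul_sub]
      rw [h1, h2]
      simp only [mul_add, add_mul, ← Matrix.mul_kronecker_mul, Matrix.one_mul, Matrix.mul_one]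
      have h3 : ∀ (P : Mat l) (R : Mat m), (-P) ⊗ₖ R = - (P ⊗ₖ R) := by
        intro P R; ext p q; simp [Matrix.kroneckerMap_apply]
      have h4 : (σ i) * (- σ i) = - (σ i * σ i) := by rw [mul_neg]
      have h5 : (- σ i) * (σ i) = - (σ i * σ i) := by rw [neg_mul]
      rw [h4, h5, h3, h3]
      abel
    simp_rw [e]
    ext p q
    have := congrFun (congrFun hN p.2) q.2
    rw [Matrix.sum_apply] at this
    rw [Matrix.sum_apply]
    simp only [Matrix.kroneckerMap_apply]
    rw [← Finset.mul_sum, this]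
    simp
  · intro i
    ext r ⟨a, c⟩
    have h1 := congrFun (congrFun (hw i a) r) c
    simp only [Matrix.sub_apply, Matrix.sum_apply, Matrix.smul_apply, smul_eq_mul] at h1
    rw [Matrix.mul_add, Matrix.add_apply, Matrix.mul_apply, Matrix.mul_apply, Matrix.mul_apply,
      Fintype.sum_prod_type, Fintype.sum_prod_type]
    simp only [Matrix.of_apply, Matrix.kroneckerMap_apply, Matrix.one_apply]
    have h2 : ∑ x, ∑ x_1, w x r x_1 * (σ i x a * if x_1 = c then 1 else 0) =
        ∑ b, σ i b a * w b r c := by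
      refine Finset.sum_congr rfl fun x _ => ?_
      rw [Finset.sum_eq_single c]
      · simp; ring
      · intro b _ hb; simp [hb]
      · intro h; exact absurd (Finset.mem_univ _) h
    have h3 : ∑ x, ∑ x_1, w x r x_1 * ((if x = a then 1 else 0) * N i x_1 c) =
        (w a * N i) r c := by
      rw [Finset.sum_eq_single a]
      · simp [Matrix.mul_apply]
      · intro b _ hb; simp [hb]
      · intro h; exact absurd (Finset.mem_univ _) h
    rw [h2, h3, ← h1]
    rw [sub_add_cancel, Matrix.mul_apply]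
  · funext r
    simp only [Matrix.mulVec, dotProduct, Matrix.of_apply, Fintype.sum_prod_type,
      Matrix.sum_apply, Matrix.smul_apply, smul_eq_mul, Finset.sum_mul]
    rw [Finset.sum_comm]
    refine Finset.sum_congr rfl fun c _ => Finset.sum_congr rfl fun a _ => ?_
    ring

/-- Every vector killed by the radical lies in the image of a harmonic module. -/
theorem hmod_of_JJ (hclma : S_clma) (hrho : S_rho) (hhar : S_har) {X N : Fin n → Mat m}
    {g : ℕ → (Mat m)ˣ} {φ : Mat m →ₗ[ℝ] Mat m} {Γ : Subgroup (Mat m)ˣ} (hG : LG X Γ)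
    (hL : Lim X N g φ) (v : Fin m → ℝ) (hv : ∀ M, JJ Γ M → M.mulVec v = 0) : HMod X v := by
  have h1 := hclma m n X N g φ Γ hG hL
  obtain ⟨ρ, hρ, hvρ⟩ := hrho m Γ φ hL.map_one
    (fun M hM M' hM' => hL.map_mul (GS_le_AX hG.le hM) (GS_le_AX hG.le hM'))
    (fun M hM => hL.map_trace (GS_le_AX hG.le hM)) h1 v hv
  rw [hvρ]
  refine hmod_sum _ _ fun c _ => ?_
  obtain ⟨l, w, σ, hσ, hw, hmem⟩ := hhar m n X N g φ Γ hG hL (ρ c) (hρ c)
  exact hmod_har hL.harm w σ hσ hw hmem _

/-- The vectors killed by the radical form an invariant subspace. -/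
theorem JJ_invariant (hclma : S_clma) (hrho : S_rho) (hhar : S_har) (hkill : S_kill)
    {X N : Fin n → Mat m}
    {g : ℕ → (Mat m)ˣ} {φ : Mat m →ₗ[ℝ] Mat m} {Γ : Subgroup (Mat m)ˣ} (hG : LG X Γ)
    (hL : Lim X N g φ) (v : Fin m → ℝ) (hv : ∀ M, JJ Γ M → M.mulVec v = 0) (i : Fin n) :
    ∀ M, JJ Γ M → M.mulVec ((X i).mulVec v) = 0 := by
  intro M hM
  refine hkill m n X N g φ hL _ (hmod_X (hmod_of_JJ hclma hrho hhar hG hL v hv) i) M
    (GS_le_AX hG.le hM.1) (hclma m n X N g φ Γ hG hL M hM)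

end Pool.Agent.Run7.h314.LJ
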