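import Pool.Agent.N696.LI.Stm

/-! Project LJ (problem MP_e3ee0c_gt): closed Reeb orbits of left-invariant contact forms, without
any hypothesis on the action.  Definitions and the exact statements of the independent parts.

Throughout `X : Fin n → Mat m` spans the Lie algebra of a connected matrix group, `eg X` is the
group generated by the exponentials `exp (∑ cᵢ Xᵢ)`, `Γ` is a subgroup of integral matrices in
`eg X` with `eg X = Γ K`, `K` compact. -/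

set_option autoImplicit false

namespace Pool.Agent.Run7.h314.LJ

open Topology Filter MvPolynomial Pool.Agent.N696.LI

section Defs

variable {ι : Type} {n : ℕ}

/-- A harmonic family of matrices. -/
def Harm [Fintype ι] (N : Fin n → Matrix ι ι ℝ) : Prop :=
  ∑ i, (N i * (N i).transpose - (N i).transpose * N i) = 0

/-- Linear combination of a family of matrices. -/
def lc (N : Fin n → Matrix ι ι ℝ) (c : Fin n → ℝ) : Matrix ι ι ℝ := ∑ i, c i • N i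

/-- The group generated by the exponentials of the linear combinations. -/
noncomputable def eg [Fintype ι] [DecidableEq ι] (N : Fin n → Matrix ι ι ℝ) :
    Subgroup (Matrix ι ι ℝ)ˣ :=
  Subgroup.closure {g | ∃ c : Fin n → ℝ, (g : Matrix ι ι ℝ) = NormedSpace.exp (lc N c)}

/-- The `k`-th tensor power of a matrix. -/
def TT [Fintype ι] [DecidableEq ι] (k : ℕ) (A : Matrix ι ι ℝ) :
    Matrix (Fin k → ι) (Fin k → ι) ℝ :=
  Matrix.of fun i i' => ∏ j, A (i j) (i' j)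

/-- The derivation on the `k`-th tensor power. -/
def tt [Fintype ι] [DecidableEq ι] (k : ℕ) (A : Matrix ι ι ℝ) :
    Matrix (Fin k → ι) (Fin k → ι) ℝ :=
  Matrix.of fun i i' => ∑ j, A (i j) (i' j) *
    ∏ l ∈ Finset.univ.erase j, (1 : Matrix ι ι ℝ) (i l) (i' l)

/-- The Plücker vector of a family of vectors. -/
def pl {k : ℕ} (B : Fin k → ι → ℝ) : (Fin k → ι) → ℝ :=
  fun i => (Matrix.of fun j l => B l (i j)).det

end Defs

section Lin

variable {m n : ℕ}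

/-- `Γ` is an integral subgroup of the group generated by the exponentials, and cocompact. -/
structure LG (X : Fin n → Mat m) (Γ : Subgroup (Mat m)ˣ) : Prop where
  le : Γ ≤ eg X
  int : ∀ γ ∈ Γ, ∀ i j, ∃ z : ℤ, (γ : Mat m) i j = z
  cocompact : ∃ K : Set (Mat m)ˣ, IsCompact K ∧ K ⊆ eg X ∧ ∀ g ∈ eg X, ∃ γ ∈ Γ, γ⁻¹ * g ∈ K

/-- The algebra generated by the family. -/
abbrev AX (X : Fin n → Mat m) : Subalgebra ℝ (Mat m) := Algebra.adjoin ℝ (Set.range X)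

/-- The conjugations by `g t` converge on the algebra generated by `X` to `φ`, and the limits of
the `X i` form a harmonic family. -/
structure Lim (X N : Fin n → Mat m) (g : ℕ → (Mat m)ˣ) (φ : Mat m →ₗ[ℝ] Mat m) : Prop where
  harm : Harm N
  gen : ∀ i, φ (X i) = N i
  lim : ∀ M ∈ AX X,
    Tendsto (fun t => (g t : Mat m) * M * (((g t)⁻¹ : (Mat m)ˣ) : Mat m)) atTop (𝓝 (φ M))

/-- The span of `Γ`. -/
def GS (Γ : Subgroup (Mat m)ˣ) : Submodule ℝ (Mat m) :=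
  Submodule.span ℝ {M : Mat m | ∃ γ ∈ Γ, M = (γ : Mat m)}

/-- The radical of the trace form on the span of `Γ`. -/
def JJ (Γ : Subgroup (Mat m)ˣ) (M : Mat m) : Prop :=
  M ∈ GS Γ ∧ ∀ γ ∈ Γ, (M * (γ : Mat m)).trace = 0

/-- The vector `v` lies in the image of an equivariant map from a harmonic module. -/
def HMod (X : Fin n → Mat m) (v : Fin m → ℝ) : Prop :=
  ∃ (h : Type) (_ : Fintype h) (_ : DecidableEq h) (K : Fin n → Matrix h h ℝ)
    (E : Matrix (Fin m) h ℝ) (y : h → ℝ), Harm K ∧ (∀ i, E * K i = X i * E) ∧ E.mulVec y = v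

end Lin

/-! ### The statements of the parts -/

/-- MIN: a minimising sequence for `∑ ‖g Xᵢ g⁻¹‖²` has a harmonic limit. -/
def S_min : Prop := ∀ (m n : ℕ) (X : Fin n → Mat m),
  ∃ (g : ℕ → (Mat m)ˣ) (N : Fin n → Mat m), Harm N ∧ ∀ i,
    Tendsto (fun t => (g t : Mat m) * X i * (((g t)⁻¹ : (Mat m)ˣ) : Mat m)) atTop (𝓝 (N i))

/-- PHI: the limit of the conjugations on the generated algebra. -/
def S_phi : Prop := ∀ (m n : ℕ) (X : Fin n → Mat m),
  ∃ (g : ℕ → (Mat m)ˣ) (N : Fin n → Mat m) (φ : Mat m →ₗ[ℝ] Mat m), Lim X N g φ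

/-- TEN: the tensor powers. -/
def S_ten : Prop := ∀ (ι : Type) [Fintype ι] [DecidableEq ι] (k : ℕ) (A B : Matrix ι ι ℝ),
  TT k (1 : Matrix ι ι ℝ) = 1 ∧ TT k (A * B) = TT k A * TT k B ∧
  TT k A.transpose = (TT k A).transpose ∧ tt k A.transpose = (tt k A).transpose ∧
  (∀ c : ℝ, tt k (c • A + B) = c • tt k A + tt k B) ∧
  tt k (A * B - B * A) = tt k A * tt k B - tt k B * tt k A ∧
  NormedSpace.exp (tt k A) = TT k (NormedSpace.exp A)

/-- PLU: Plücker vectors. -/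
def S_plu : Prop := ∀ (ι : Type) [Fintype ι] [DecidableEq ι] (k : ℕ) (B : Fin k → ι → ℝ),
  (∀ (A : Matrix ι ι ℝ) (a : Mat k), (∀ l, A.mulVec (B l) = ∑ j, a j l • B j) →
    (TT k A).mulVec (pl B) = a.det • pl B) ∧
  (LinearIndependent ℝ B → pl B ≠ 0) ∧
  ((∀ i j, dotProduct (B i) (B j) = if i = j then 1 else 0) →
    ∀ (A : Matrix ι ι ℝ) (c : ℝ), c ≠ 0 → (TT k A).mulVec (pl B) = c • pl B →
    ∀ l, A.mulVec (B l) ∈ Submodule.span ℝ (Set.range B))

/-- SKEW: a bounded orbit of the group of a harmonic family: on it the transposes act as the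
inverses. -/
def S_skew : Prop := ∀ (ι : Type) [Fintype ι] [DecidableEq ι] (n : ℕ)
  (K : Fin n → Matrix ι ι ℝ), Harm K → ∀ (w : ι → ℝ) (R : ℝ),
  (∀ h ∈ eg K, ∀ i, |((h : Matrix ι ι ℝ).mulVec w) i| ≤ R) →
  ∀ h ∈ eg K, (h : Matrix ι ι ℝ).transpose.mulVec w =
    ((h⁻¹ : (Matrix ι ι ℝ)ˣ) : Matrix ι ι ℝ).mulVec w

/-- FRAME: normalised frames of the conjugated algebras converge. -/
def S_frame : Prop := ∀ (m k : ℕ) (b : Fin k → Mat m) (g : ℕ → (Mat m)ˣ)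
  (φ : Mat m →ₗ[ℝ] Mat m), LinearIndependent ℝ b →
  (1 : Mat m) ∈ Submodule.span ℝ (Set.range b) →
  (∀ M ∈ Submodule.span ℝ (Set.range b), ∀ M' ∈ Submodule.span ℝ (Set.range b),
    M * M' ∈ Submodule.span ℝ (Set.range b)) →
  (∀ M ∈ Submodule.span ℝ (Set.range b),
    Tendsto (fun t => (g t : Mat m) * M * (((g t)⁻¹ : (Mat m)ˣ) : Mat m)) atTop (𝓝 (φ M))) →
  ∃ (B : Fin k → Mat m) (s : ℕ → ℕ) (C : ℕ → Fin k → Mat m), Tendsto s atTop atTop ∧
    (∀ t l, C t l ∈ Submodule.span ℝ (Set.range b)) ∧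
    (∀ l, Tendsto (fun t => (g (s t) : Mat m) * C t l * (((g (s t))⁻¹ : (Mat m)ˣ) : Mat m))
      atTop (𝓝 (B l))) ∧
    (∀ i j, (B i * (B j).transpose).trace = if i = j then 1 else 0) ∧
    (1 : Mat m) ∈ Submodule.span ℝ (Set.range B) ∧
    ∀ M ∈ Submodule.span ℝ (Set.range b), ∀ c : Mat k, (∀ l, M * b l = ∑ j, c j l • b j) →
      ∃ a : Mat k, a.det = c.det ∧ ∀ l, φ M * B l = ∑ j, a j l • B j

/-- UNIM: a group of integral matrices acts with determinant `± 1` on its span. -/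
def S_unim : Prop := ∀ (m k : ℕ) (Γ : Subgroup (Mat m)ˣ) (b : Fin k → Mat m),
  (∀ γ ∈ Γ, ∀ i j, ∃ z : ℤ, (γ : Mat m) i j = z) → LinearIndependent ℝ b →
  (∀ l, ∃ γ ∈ Γ, b l = (γ : Mat m)) → Submodule.span ℝ (Set.range b) = GS Γ →
  ∀ γ ∈ Γ, ∀ c : Mat k, (∀ l, (γ : Mat m) * b l = ∑ j, c j l • b j) → |c.det| = 1

/-- CLMA: the limit kills the radical of the trace form on the span of `Γ`. -/
def S_clma : Prop := ∀ (m n : ℕ) (X N : Fin n → Mat m) (g : ℕ → (Mat m)ˣ)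
  (φ : Mat m →ₗ[ℝ] Mat m) (Γ : Subgroup (Mat m)ˣ), LG X Γ → Lim X N g φ →
  ∀ M, JJ Γ M → φ M = 0

/-- RHO: equivariant maps to a vector killed by the radical. -/
def S_rho : Prop := ∀ (m : ℕ) (Γ : Subgroup (Mat m)ˣ) (φ : Mat m →ₗ[ℝ] Mat m),
  φ 1 = 1 → (∀ M ∈ GS Γ, ∀ M' ∈ GS Γ, φ (M * M') = φ M * φ M') →
  (∀ M ∈ GS Γ, (φ M).trace = M.trace) → (∀ M, JJ Γ M → φ M = 0) →
  ∀ v : Fin m → ℝ, (∀ M, JJ Γ M → M.mulVec v = 0) →
  ∃ ρ : Fin m → Mat m, (∀ c, ∀ γ ∈ Γ, ρ c * φ (γ : Mat m) = (γ : Mat m) * ρ c) ∧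
    v = ∑ c, (ρ c).mulVec (Pi.single c 1)

/-- HAR: an equivariant map spans a module with a bounded action, hence with skew generators. -/
def S_har : Prop := ∀ (m n : ℕ) (X N : Fin n → Mat m) (g : ℕ → (Mat m)ˣ)
  (φ : Mat m →ₗ[ℝ] Mat m) (Γ : Subgroup (Mat m)ˣ), LG X Γ → Lim X N g φ →
  ∀ ρ : Mat m, (∀ γ ∈ Γ, ρ * φ (γ : Mat m) = (γ : Mat m) * ρ) →
  ∃ (l : ℕ) (w : Fin l → Mat m) (σ : Fin n → Mat l), (∀ i, (σ i).transpose = - σ i) ∧
    (∀ i a, X i * w a - w a * N i = ∑ b, σ i b a • w b) ∧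
    ρ ∈ Submodule.span ℝ (Set.range w)

/-- SOC: the radical has a common kernel. -/
def S_soc : Prop := ∀ (m : ℕ) (Γ : Subgroup (Mat m)ˣ), 0 < m →
  ∃ v : Fin m → ℝ, v ≠ 0 ∧ ∀ M, JJ Γ M → M.mulVec v = 0

/-- KILL: the kernel of the limit kills the images of the harmonic modules. -/
def S_kill : Prop := ∀ (m n : ℕ) (X N : Fin n → Mat m) (g : ℕ → (Mat m)ˣ)
  (φ : Mat m →ₗ[ℝ] Mat m), Lim X N g φ → ∀ v, HMod X v → ∀ M ∈ AX X, φ M = 0 →
  M.mulVec v = 0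

/-- RAT2: the vectors killed by the radical are spanned by the rational ones. -/
def S_rat2 : Prop := ∀ (m : ℕ) (Γ : Subgroup (Mat m)ˣ),
  (∀ γ ∈ Γ, ∀ i j, ∃ z : ℤ, (γ : Mat m) i j = z) →
  ∀ v : Fin m → ℝ, (∀ M, JJ Γ M → M.mulVec v = 0) →
  v ∈ Submodule.span ℝ {y : Fin m → ℝ | (∀ M, JJ Γ M → M.mulVec y = 0) ∧
    ∃ z : Fin m → ℚ, y = fun i => (z i : ℝ)}

/-- MET: if every vector lies in the image of a harmonic module, then the family is harmonic for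
some metric. -/
def S_met : Prop := ∀ (m n : ℕ) (X : Fin n → Mat m), (∀ v, HMod X v) →
  ∃ P : Mat m, P.PosDef ∧
    ∑ i, (X i * (P * (X i).transpose * P⁻¹) - (P * (X i).transpose * P⁻¹) * X i) = 0

/-- FIS: polynomials invariant under the group of a harmonic family are invariant under the
adjoints. -/
def S_fis : Prop := ∀ (m n : ℕ) (X : Fin n → Mat m) (P : Mat m), P.PosDef →
  ∑ i, (X i * (P * (X i).transpose * P⁻¹) - (P * (X i).transpose * P⁻¹) * X i) = 0 →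
  ∀ Q : MvPolynomial (Fin m) ℝ,
  (∀ h ∈ eg X, ∀ ν, eval ((h : Mat m).mulVec ν) Q = eval ν Q) →
  ∀ h ∈ eg X, ∀ ν, eval ((P * (h : Mat m).transpose * P⁻¹).mulVec ν) Q = eval ν Q

end Pool.Agent.Run7.h314.LJ
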