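import Pool.Agent.Run7.h314.LJ.Fin
import Pool.Agent.Run7.h314.LJ.Clma
import Pool.Agent.N696.LI.P_HESS
import Pool.Agent.N696.LI.P_KER
import Pool.Agent.N696.LI.P_LAT
import Pool.Agent.N696.LI.P_POLY2
import Pool.Agent.N353.LI.NOOP
import Pool.Agent.N424.LI.Expm
import Pool.Agent.N424.LI.Minv
import Pool.Agent.N424.LI.Poly1
import Pool.Agent.N692.LI.OPEN
import Pool.Agent.N717.LI.Dc
import Pool.Agent.Run7.h81.LJ.TEN
import Pool.Agent.Run7.h81.LJ.PLU
import Pool.Agent.Run7.h81.LJ.UNIM
import Pool.Agent.Run7.h253.LJ.Skew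
import Pool.Agent.Run7.h253.LJ.Har
import Pool.Agent.Run7.h324.LJ.Rho
import Pool.Agent.Run7.h324.LJ.SocKill
import Pool.Agent.Run7.h324.LJ.Rat2
import Pool.Agent.Run7.h324.LJ.Met
import Pool.Agent.Run7.h324.LJ.Fis
import Pool.Agent.Run7.h437.LJ.Min
import Pool.Agent.Run7.h437.LJ.Frame

set_option autoImplicit false

/-!
# Closed Reeb orbits of left-invariant contact forms are dense, for every action

Let `𝔤` be a unimodular Lie algebra of a connected linear Lie group `G` (generated by the
exponentials of the elements of `𝔤`), `Γ` a discrete cocompact subgroup of `G`, `v ≠ 0` an abelian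
ideal of `𝔤` which meets `Γ` in a lattice, and `α` a left-invariant contact form on `G`, given by
its value at the identity, with Reeb vector `ξ`.  The Reeb flow of the induced contact form on the
closed manifold `Γ \ G` is `Γ g ↦ Γ g exp (t ξ)`.  The closed orbits of this flow are dense.

The starting result `LeftInvariantForms` needs one of four hypotheses on the action of `G` on `v`;
here there is none.  The new ingredient: if `G` is a connected group of matrices with a cocompact
subgroup `Γ` of integral matrices and there is no proper rational invariant subspace, then some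
inner product is a moment map zero for the Lie algebra of `G` (so `G` acts completely reducibly).
-/

open Topology MvPolynomial Pool.Agent.N696.LI

namespace Pool.Agent.Run7.h314.LJ.LeftInvariantAll

theorem result {A : Type} [NormedRing A] [NormedAlgebra ℝ A] [FiniteDimensional ℝ A]
    -- a unimodular linear Lie algebra `𝔤`, a discrete cocompact subgroup `Γ` of the group `G`
    -- generated by the exponentials of its elements, and a nonzero abelian ideal `v` of `𝔤` which
    -- meets `Γ` in a lattice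
    (𝔤 : Submodule ℝ A) (Γ : Subgroup Aˣ) (v : Submodule ℝ A) (hS : Setting 𝔤 Γ v)
    -- a left-invariant contact form with Reeb vector `ξ`
    (α : A →ₗ[ℝ] ℝ) (ξ : A) (hα : IsContact 𝔤 α ξ) :
    -- the closed orbits of the Reeb flow `Γ g ↦ Γ g exp (t ξ)` are dense
    ∀ g ∈ grp 𝔤, ∀ W ∈ 𝓝 g, ∃ g' ∈ grp 𝔤, g' ∈ W ∧ ∃ T : ℝ, 0 < T ∧ ∃ γ ∈ Γ,
      (g' : A) * NormedSpace.exp (T • ξ) = γ * g' := by
  have hopen : S_open := Pool.Agent.N692.LI.s_open
  exact Pool.Agent.Run7.h314.LJ.main_all Pool.Agent.N424.LI.expm Lat.lat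
    (Pool.Agent.N353.LI.noop hopen) (Poly2.poly2 Pool.Agent.N424.LI.poly1) Ker.ker
    (Pool.Agent.N424.LI.minv hopen) Hess.hess (Pool.Agent.N717.LI.dc hopen)
    (Pool.Agent.Run7.h314.LJ.phi Pool.Agent.Run7.h437.LJ.min)
    (Pool.Agent.Run7.h314.LJ.clma Pool.Agent.Run7.h81.LJ.ten Pool.Agent.Run7.h81.LJ.plu
      Pool.Agent.Run7.h253.LJ.skew Pool.Agent.Run7.h437.LJ.frame Pool.Agent.Run7.h81.LJ.unim)
    Pool.Agent.Run7.h324.LJ.main_RHO Pool.Agent.Run7.h253.LJ.har
    Pool.Agent.Run7.h324.LJ.main_SOC Pool.Agent.Run7.h324.LJ.main_KILL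
    Pool.Agent.Run7.h324.LJ.main_RAT2 Pool.Agent.Run7.h324.LJ.main_MET
    Pool.Agent.Run7.h324.LJ.main_FIS hS α ξ hα

end Pool.Agent.Run7.h314.LJ.LeftInvariantAll
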