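import Pool.Agent.Run7.h314.LJ.Iface

/-! Project LJ: the limit homomorphism and its first properties. -/

set_option autoImplicit false

namespace Pool.Agent.Run7.h314.LJ

open Topology Filter Pool.Agent.N696.LI

variable {m n : ℕ}

/-- conjugation -/
def cjm (g : (Mat m)ˣ) (M : Mat m) : Mat m := (g : Mat m) * M * ((g⁻¹ : (Mat m)ˣ) : Mat m)

theorem cjm_mul (g : (Mat m)ˣ) (M N : Mat m) : cjm g (M * N) = cjm g M * cjm g N := by
  simp only [cjm]
  calc (g : Mat m) * (M * N) * ((g⁻¹ : (Mat m)ˣ) : Mat m)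
      = (g : Mat m) * M * 1 * N * ((g⁻¹ : (Mat m)ˣ) : Mat m) := by noncomm_ring
    _ = _ := by rw [← Units.inv_mul g]; noncomm_ring

theorem cjm_add (g : (Mat m)ˣ) (M N : Mat m) : cjm g (M + N) = cjm g M + cjm g N := by
  simp only [cjm]; noncomm_ring

theorem cjm_algebraMap (g : (Mat m)ˣ) (r : ℝ) :
    cjm g (algebraMap ℝ (Mat m) r) = algebraMap ℝ (Mat m) r := by
  rw [cjm, ← Algebra.commutes, mul_assoc, Units.mul_inv, mul_one]

theorem cjm_trace (g : (Mat m)ˣ) (M : Mat m) : (cjm g M).trace = M.trace := by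
  rw [cjm, Matrix.trace_mul_comm, ← mul_assoc, Units.inv_mul, one_mul]

/-- The subalgebra on which the conjugations converge. -/
def convAlg (g : ℕ → (Mat m)ˣ) : Subalgebra ℝ (Mat m) where
  carrier := {M | ∃ L : Mat m, Tendsto (fun t => cjm (g t) M) atTop (𝓝 L)}
  mul_mem' := by
    rintro a b ⟨L, hL⟩ ⟨L', hL'⟩
    refine ⟨L * L', ?_⟩
    simp_rw [cjm_mul]
    exact hL.mul hL'
  add_mem' := by
    rintro a b ⟨L, hL⟩ ⟨L', hL'⟩
    refine ⟨L + L', ?_⟩
    simp_rw [cjm_add]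
    exact hL.add hL'
  algebraMap_mem' := by
    intro r
    refine ⟨algebraMap ℝ (Mat m) r, ?_⟩
    simp_rw [cjm_algebraMap]
    exact tendsto_const_nhds

theorem phi (hmin : S_min) : S_phi := by
  classical
  intro m n X
  obtain ⟨g, N, hN, hlim⟩ := hmin m n X
  have hle : AX X ≤ convAlg g := by
    refine Algebra.adjoin_le ?_
    rintro _ ⟨i, rfl⟩
    exact ⟨N i, hlim i⟩
  have hex : ∀ M : AX X, ∃ L : Mat m, Tendsto (fun t => cjm (g t) (M : Mat m)) atTop (𝓝 L) :=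
    fun M => hle M.2
  choose f hf using hex
  let f' : (AX X).toSubmodule →ₗ[ℝ] Mat m :=
    { toFun := fun M => f ⟨M.1, M.2⟩
      map_add' := by
        intro a b
        refine tendsto_nhds_unique (hf ⟨(a + b).1, (a + b).2⟩) ?_
        have h1 := (hf ⟨a.1, a.2⟩).add (hf ⟨b.1, b.2⟩)
        have h2 : ∀ t, cjm (g t) ((a + b).1) = cjm (g t) a.1 + cjm (g t) b.1 := by
          intro t
          show cjm (g t) (a.1 + b.1) = _
          rw [cjm_add]
        simp_rw [h2]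
        exact h1
      map_smul' := by
        intro r a
        refine tendsto_nhds_unique (hf ⟨(r • a).1, (r • a).2⟩) ?_
        have h1 := (hf ⟨a.1, a.2⟩).const_smul r
        have h2 : ∀ t, cjm (g t) ((r • a).1) = r • cjm (g t) a.1 := by
          intro t
          show cjm (g t) (r • a.1) = _
          simp [cjm]
        simp_rw [h2]
        exact h1 }
  obtain ⟨φ, hφ⟩ := LinearMap.exists_extend f'
  have hφ' : ∀ M (hM : M ∈ AX X), φ M = f ⟨M, hM⟩ := by
    intro M hM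
    exact LinearMap.congr_fun hφ ⟨M, hM⟩
  refine ⟨g, N, φ, hN, ?_, ?_⟩
  · intro i
    have hi : X i ∈ AX X := Algebra.subset_adjoin ⟨i, rfl⟩
    rw [hφ' _ hi]
    exact tendsto_nhds_unique (hf ⟨X i, hi⟩) (hlim i)
  · intro M hM
    rw [hφ' _ hM]
    exact hf ⟨M, hM⟩

section Props

variable {X N : Fin n → Mat m} {g : ℕ → (Mat m)ˣ} {φ : Mat m →ₗ[ℝ] Mat m}

theorem Lim.tend (h : Lim X N g φ) {M : Mat m} (hM : M ∈ AX X) :
    Tendsto (fun t => cjm (g t) M) atTop (𝓝 (φ M)) := h.lim M hM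

theorem Lim.map_one (h : Lim X N g φ) : φ 1 = 1 := by
  refine tendsto_nhds_unique (h.tend (AX X).one_mem) ?_
  have : ∀ t, cjm (g t) 1 = 1 := by
    intro t; simp [cjm]
  simp_rw [this]
  exact tendsto_const_nhds

theorem Lim.map_mul (h : Lim X N g φ) {M M' : Mat m} (hM : M ∈ AX X) (hM' : M' ∈ AX X) :
    φ (M * M') = φ M * φ M' := by
  refine tendsto_nhds_unique (h.tend ((AX X).mul_mem hM hM')) ?_
  simp_rw [cjm_mul]
  exact (h.tend hM).mul (h.tend hM')

theorem Lim.map_trace (h : Lim X N g φ) {M : Mat m} (hM : M ∈ AX X) :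
    (φ M).trace = M.trace := by
  have h1 : Tendsto (fun t => (cjm (g t) M).trace) atTop (𝓝 (φ M).trace) := by
    have hc : Continuous (fun M : Mat m => M.trace) := by
      unfold Matrix.trace; fun_prop
    exact (hc.tendsto _).comp (h.tend hM)
  simp_rw [cjm_trace] at h1
  exact tendsto_nhds_unique h1 tendsto_const_nhds

theorem X_mem (i : Fin n) : X i ∈ AX X := Algebra.subset_adjoin ⟨i, rfl⟩

theorem lc_mem (c : Fin n → ℝ) : lc X c ∈ AX X :=
  Subalgebra.sum_mem _ fun i _ => Subalgebra.smul_mem _ (X_mem i) _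

theorem Lim.map_lc (h : Lim X N g φ) (c : Fin n → ℝ) : φ (lc X c) = lc N c := by
  simp only [lc, map_sum, map_smul, h.gen]

section
attribute [local instance] Matrix.linftyOpNormedRing Matrix.linftyOpNormedAlgebra

theorem closed_AX : IsClosed ((AX X : Subalgebra ℝ (Mat m)) : Set (Mat m)) :=
  (AX X).toSubmodule.closed_of_finiteDimensional

theorem exp_mem_AX {M : Mat m} (hM : M ∈ AX X) : NormedSpace.exp M ∈ AX X := by
  have h1 := NormedSpace.exp_series_hasSum_exp' (𝕂 := ℝ) M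
  refine closed_AX.mem_of_tendsto h1 (Eventually.of_forall fun s => ?_)
  exact Subalgebra.sum_mem _ fun k _ => Subalgebra.smul_mem _ (Subalgebra.pow_mem _ hM _) _

theorem Lim.map_pow (h : Lim X N g φ) {M : Mat m} (hM : M ∈ AX X) (k : ℕ) :
    φ (M ^ k) = (φ M) ^ k := by
  induction k with
  | zero => rw [pow_zero, pow_zero, h.map_one]
  | succ k ih => rw [pow_succ, pow_succ, h.map_mul (Subalgebra.pow_mem _ hM _) hM, ih]

theorem Lim.map_exp (h : Lim X N g φ) {M : Mat m} (hM : M ∈ AX X) :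
    φ (NormedSpace.exp M) = NormedSpace.exp (φ M) := by
  have h1 := NormedSpace.exp_series_hasSum_exp' (𝕂 := ℝ) M
  have h2 := NormedSpace.exp_series_hasSum_exp' (𝕂 := ℝ) (φ M)
  have hc : Continuous φ := LinearMap.continuous_of_finiteDimensional φ
  have h3 := h1.map φ hc
  have e : (φ ∘ fun k : ℕ => ((k.factorial : ℝ)⁻¹) • M ^ k) =
      fun k : ℕ => ((k.factorial : ℝ)⁻¹) • (φ M) ^ k := by
    funext k
    simp only [Function.comp_apply, map_smul, h.map_pow hM]
  rw [e] at h3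
  exact h3.unique h2

end

theorem expM_mul_neg (M : Mat m) : NormedSpace.exp M * NormedSpace.exp (-M) = 1 := by
  rw [← Matrix.exp_add_of_commute _ _ (Commute.neg_right (Commute.refl M)), add_neg_cancel,
    NormedSpace.exp_zero]

theorem lc_neg {ι : Type} (X : Fin n → Matrix ι ι ℝ) (c : Fin n → ℝ) : lc X (-c) = - lc X c := by
  simp [lc, Finset.sum_neg_distrib]

/-- the inverse of an exponential generator -/
theorem inv_exp {ι : Type} [Fintype ι] [DecidableEq ι] {M : Matrix ι ι ℝ}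
    {g : (Matrix ι ι ℝ)ˣ} (h : (g : Matrix ι ι ℝ) = NormedSpace.exp M) :
    ((g⁻¹ : (Matrix ι ι ℝ)ˣ) : Matrix ι ι ℝ) = NormedSpace.exp (-M) := by
  have h1 : NormedSpace.exp M * NormedSpace.exp (-M) = 1 := by
    rw [← Matrix.exp_add_of_commute _ _ (Commute.neg_right (Commute.refl M)), add_neg_cancel,
      NormedSpace.exp_zero]
  rw [← h] at h1
  calc ((g⁻¹ : (Matrix ι ι ℝ)ˣ) : Matrix ι ι ℝ) = ((g⁻¹ : (Matrix ι ι ℝ)ˣ) : Matrix ι ι ℝ) *
        ((g : Matrix ι ι ℝ) * NormedSpace.exp (-M)) := by rw [h1, mul_one]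
    _ = _ := by rw [← mul_assoc, Units.inv_mul, one_mul]

theorem eg_mem_AX {h : (Mat m)ˣ} (hh : h ∈ eg X) :
    (h : Mat m) ∈ AX X ∧ ((h⁻¹ : (Mat m)ˣ) : Mat m) ∈ AX X := by
  induction hh using Subgroup.closure_induction with
  | mem x hx =>
    obtain ⟨c, hc⟩ := hx
    refine ⟨?_, ?_⟩
    · rw [hc]; exact exp_mem_AX (lc_mem c)
    · rw [inv_exp hc]; exact exp_mem_AX (Subalgebra.neg_mem _ (lc_mem c))
  | one => simp [(AX X).one_mem]
  | mul x y _ _ hx hy =>
    refine ⟨?_, ?_⟩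
    · rw [Units.val_mul]; exact (AX X).mul_mem hx.1 hy.1
    · rw [mul_inv_rev, Units.val_mul]; exact (AX X).mul_mem hy.2 hx.2
  | inv x _ hx => exact ⟨hx.2, by rw [inv_inv]; exact hx.1⟩

theorem GS_le_AX {Γ : Subgroup (Mat m)ˣ} (hΓ : Γ ≤ eg X) {M : Mat m} (hM : M ∈ GS Γ) :
    M ∈ AX X := by
  have : GS Γ ≤ (AX X).toSubmodule := by
    refine Submodule.span_le.2 ?_
    rintro _ ⟨γ, hγ, rfl⟩
    exact (eg_mem_AX (hΓ hγ)).1
  exact this hM

/-- image of a group element as a unit -/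
theorem Lim.map_inv (h : Lim X N g φ) {x : (Mat m)ˣ} (hx : x ∈ eg X) :
    φ (x : Mat m) * φ ((x⁻¹ : (Mat m)ˣ) : Mat m) = 1 ∧
      φ ((x⁻¹ : (Mat m)ˣ) : Mat m) * φ (x : Mat m) = 1 := by
  have h1 := eg_mem_AX hx
  constructor
  · rw [← h.map_mul h1.1 h1.2, Units.mul_inv, h.map_one]
  · rw [← h.map_mul h1.2 h1.1, Units.inv_mul, h.map_one]

end Props

theorem GS_one (Γ : Subgroup (Mat m)ˣ) : (1 : Mat m) ∈ GS Γ :=
  Submodule.subset_span ⟨1, Γ.one_mem, rfl⟩

theorem GS_mem {Γ : Subgroup (Mat m)ˣ} {γ : (Mat m)ˣ} (h : γ ∈ Γ) : (γ : Mat m) ∈ GS Γ :=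
  Submodule.subset_span ⟨γ, h, rfl⟩

theorem GS_mul {Γ : Subgroup (Mat m)ˣ} {M M' : Mat m} (hM : M ∈ GS Γ) (hM' : M' ∈ GS Γ) :
    M * M' ∈ GS Γ := by
  have h1 : ∀ γ ∈ Γ, ∀ M' ∈ GS Γ, (γ : Mat m) * M' ∈ GS Γ := by
    intro γ hγ M' hM'
    induction hM' using Submodule.span_induction with
    | mem x hx =>
      obtain ⟨δ, hδ, rfl⟩ := hx
      exact Submodule.subset_span ⟨γ * δ, Γ.mul_mem hγ hδ, rfl⟩
    | zero => rw [mul_zero]; exact Submodule.zero_mem _
    | add x y _ _ hx hy => rw [mul_add]; exact Submodule.add_mem _ hx hy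
    | smul a x _ hx => rw [mul_smul_comm]; exact Submodule.smul_mem _ _ hx
  induction hM using Submodule.span_induction with
  | mem x hx =>
    obtain ⟨γ, hγ, rfl⟩ := hx
    exact h1 γ hγ M' hM'
  | zero => rw [zero_mul]; exact Submodule.zero_mem _
  | add x y _ _ hx hy => rw [add_mul]; exact Submodule.add_mem _ hx hy
  | smul a x _ hx => rw [smul_mul_assoc]; exact Submodule.smul_mem _ _ hx

/-- The trace form against the whole span. -/
theorem JJ.trace {Γ : Subgroup (Mat m)ˣ} {M : Mat m} (h : JJ Γ M) {M' : Mat m}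
    (hM' : M' ∈ GS Γ) : (M * M').trace = 0 := by
  induction hM' using Submodule.span_induction with
  | mem x hx => obtain ⟨γ, hγ, rfl⟩ := hx; exact h.2 γ hγ
  | zero => rw [mul_zero, Matrix.trace_zero]
  | add x y _ _ hx hy => rw [mul_add, Matrix.trace_add, hx, hy, add_zero]
  | smul a x _ hx => rw [mul_smul_comm, Matrix.trace_smul, hx, smul_zero]

end Pool.Agent.Run7.h314.LJ
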